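import Pool.Agent.W761.CC.Stms
import Pool.Agent.W975.CB.Ms
import Pool.Agent.W366.CB.Lam
import Pool.Agent.W337.CB.Mecke
import Pool.Agent.W417.CB.Ebc

/-!
# One block with exactly `N` particles (project CC)
-/

set_option autoImplicit false

open MeasureTheory
open scoped ENNReal

namespace Pool.Agent.W366.CC.One

open Pool.Agent.W761.CB Pool.Agent.W761.CC

section

variable {X : Type} [MeasurableSpace X]

theorem hMS : S_MS := Pool.Agent.W975.CB.proof_ms
theorem hLAM : S_LAM := Pool.Agent.W366.CB.proof_lam hMS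
theorem hMK : S_MECKE := Pool.Agent.W337.CB.proof_mecke hMS hLAM
theorem hEBC : S_EBC := Pool.Agent.W417.CB.proof_ebc hMS hLAM

omit [MeasurableSpace X] in
lemma ms_surj (S : Multiset X) : ∃ γ : Cf X, ms γ = S := by
  induction S using Quotient.inductionOn with
  | _ l =>
    refine ⟨⟨l.length, l.get⟩, ?_⟩
    unfold ms
    rw [List.ofFn_get]
    rfl

/-- difference -/
lemma eb_sub {F G : Multiset X → ℂ} (hF : EB F) (hG : EB G) : EB (fun S => F S - G S) := by
  have h := (hEBC X (0 : Measure X) F G hF hG).2.2.1 1 (-1)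
  have e : (fun S => (1 : ℂ) * F S + (-1) * G S) = fun S => F S - G S := by
    funext S; ring
  rwa [e] at h

lemma eb_an {F : Multiset X → ℂ} (hF : EB F) (x : X) : EB (an x F) :=
  (hEBC X (0 : Measure X) F F hF hF).1 x

lemma meas_cons {F : Multiset X → ℂ} (hF : EB F) :
    Measurable (fun p : X × Cf X => F (p.1 ::ₘ ms p.2)) :=
  (hEBC X (0 : Measure X) F F hF hF).2.2.2.2.1

lemma meas_cons2 {F : Multiset X → ℂ} (hF : EB F) :
    Measurable (fun p : (X × X) × Cf X => F (p.1.1 ::ₘ p.1.2 ::ₘ ms p.2)) :=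
  (hEBC X (0 : Measure X) F F hF hF).2.2.2.2.2.1

lemma meas_sec {F : Multiset X → ℂ} (hF : EB F) (S : Multiset X) :
    Measurable (fun x => F (x ::ₘ S)) := by
  obtain ⟨γ, rfl⟩ := ms_surj S
  exact (meas_cons hF).comp (measurable_id.prodMk measurable_const)

lemma bdd_sec {F : Multiset X → ℂ} (hF : EB F) (S : Multiset X) :
    ∃ K : ℝ, ∀ x, ‖F (x ::ₘ S)‖ ≤ K := by
  obtain ⟨C, c, hC, hc, h⟩ := hF.bdd
  exact ⟨C * c ^ (Multiset.card S + 1), fun x => by
    have := h (x ::ₘ S)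
    rwa [Multiset.card_cons] at this⟩

variable (ν : Measure X) [IsFiniteMeasure ν]

lemma int_sec {F : Multiset X → ℂ} (hF : EB F) (S : Multiset X) (B : Set X) :
    Integrable (fun x => F (x ::ₘ S)) (ν.restrict B) := by
  obtain ⟨K, hK⟩ := bdd_sec hF S
  exact Integrable.of_bound (meas_sec hF S).aestronglyMeasurable K
    (Filter.Eventually.of_forall hK)

lemma eb_av {F : Multiset X → ℂ} (hF : EB F) {B : Set X} (hB : MeasurableSet B) :
    EB (av ν B F) := by
  have h1 : EB (ag ν (B.indicator fun _ => (1 : ℝ)) F) := by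
    refine (hEBC X ν F F hF hF).2.2.2.1 _ (measurable_const.indicator hB) ⟨1, fun x => ?_⟩
    by_cases hx : x ∈ B
    · rw [Set.indicator_of_mem hx]; simp
    · rw [Set.indicator_of_notMem hx]; simp
  have h2 := (hEBC X ν _ F h1 hF).2.2.1 (((ν B).toReal : ℂ)⁻¹) 0
  have e : (fun S => ((ν B).toReal : ℂ)⁻¹ * ag ν (B.indicator fun _ => (1 : ℝ)) F S + 0 * F S) =
      av ν B F := by
    funext S
    unfold av ag
    rw [zero_mul, add_zero, ← integral_indicator hB]
    congr 1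
    refine integral_congr_ae (Filter.Eventually.of_forall fun x => ?_)
    by_cases hx : x ∈ B
    · simp [Set.indicator_of_mem hx]
    · simp [Set.indicator_of_notMem hx]
  rwa [e] at h2

/-- the variance identity -/
lemma var (μ : Measure X) [IsFiniteMeasure μ] (f : X → ℂ) (hf : Measurable f) (K : ℝ)
    (hK : ∀ x, ‖f x‖ ≤ K) (b : ℝ) (hb : 0 < b) (hμ : μ Set.univ = ENNReal.ofReal b) :
    ∫⁻ x, ‖f x - (b : ℂ)⁻¹ * ∫ x, f x ∂μ‖ₑ ^ 2 ∂μ +
      ENNReal.ofReal b * ‖(b : ℂ)⁻¹ * ∫ x, f x ∂μ‖ₑ ^ 2 = ∫⁻ x, ‖f x‖ₑ ^ 2 ∂μ := by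
  set A : ℂ := (b : ℂ)⁻¹ * ∫ x, f x ∂μ with hA
  have hbc : (b : ℂ) ≠ 0 := by exact_mod_cast hb.ne'
  have hsum : ∫ x, f x ∂μ = (b : ℂ) * A := by rw [hA]; field_simp
  have hμr : μ.real Set.univ = b := by
    rw [Measure.real, hμ, ENNReal.toReal_ofReal hb.le]
  have hint : Integrable f μ := Integrable.of_bound hf.aestronglyMeasurable K
    (Filter.Eventually.of_forall hK)
  have hsqe : ∀ z : ℂ, ‖z‖ₑ ^ 2 = ENNReal.ofReal (‖z‖ ^ 2) := by
    intro z
    rw [← ofReal_norm, ← ENNReal.ofReal_pow (norm_nonneg _)]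
  have hbd : ∀ (h : X → ℂ) (K' : ℝ), Measurable h → (∀ x, ‖h x‖ ≤ K') →
      Integrable (fun x => ‖h x‖ ^ 2) μ := by
    intro h K' hh hK'
    refine Integrable.of_bound (hh.norm.pow_const 2).aestronglyMeasurable (K' ^ 2)
      (Filter.Eventually.of_forall fun x => ?_)
    rw [Real.norm_eq_abs, abs_of_nonneg (by positivity)]
    exact pow_le_pow_left₀ (norm_nonneg _) (hK' x) 2
  have i1 : Integrable (fun x => ‖f x‖ ^ 2) μ := hbd f K hf hK
  have i2 : Integrable (fun x => ‖f x - A‖ ^ 2) μ := hbd _ (K + ‖A‖) (hf.sub measurable_const)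
    (fun x => (norm_sub_le _ _).trans (by linarith [hK x]))
  simp only [hsqe]
  rw [← ofReal_integral_eq_lintegral_ofReal i1 (Filter.Eventually.of_forall fun x => by positivity),
    ← ofReal_integral_eq_lintegral_ofReal i2 (Filter.Eventually.of_forall fun x => by positivity),
    ← ENNReal.ofReal_mul hb.le, ← ENNReal.ofReal_add (integral_nonneg fun x => by positivity)
      (by positivity)]
  congr 1
  have h1 : ∀ x, ‖f x - A‖ ^ 2 = ‖f x‖ ^ 2 + ‖A‖ ^ 2 - 2 * (f x * (starRingEnd ℂ) A).re := by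
    intro x
    simp only [← Complex.normSq_eq_norm_sq, Complex.normSq_apply, Complex.sub_re, Complex.sub_im,
      Complex.mul_re, Complex.conj_re, Complex.conj_im]
    ring
  simp only [h1]
  have i3 : Integrable (fun x => f x * (starRingEnd ℂ) A) μ := hint.mul_const _
  have i4 : Integrable (fun x => (f x * (starRingEnd ℂ) A).re) μ := i3.re
  have i5 : Integrable (fun x => ‖f x‖ ^ 2 + ‖A‖ ^ 2) μ := i1.add (integrable_const _)
  rw [integral_sub i5 (i4.const_mul 2), integral_add i1 (integrable_const _), integral_const,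
    integral_const_mul]
  have h2 : ∫ x, (f x * (starRingEnd ℂ) A).re ∂μ = b * ‖A‖ ^ 2 := by
    have h3 : ∫ x, (f x * (starRingEnd ℂ) A).re ∂μ = (∫ x, f x * (starRingEnd ℂ) A ∂μ).re :=
      integral_re i3
    rw [h3, integral_mul_const, hsum, mul_assoc, Complex.mul_conj, ← Complex.ofReal_mul,
      Complex.ofReal_re, Complex.normSq_eq_norm_sq]
  rw [h2, hμr, smul_eq_mul]
  ring

lemma ofReal_sq (z : ℂ) : ‖z‖ₑ ^ 2 = ENNReal.ofReal (‖z‖ ^ 2) := by
  rw [← ofReal_norm, ← ENNReal.ofReal_pow (norm_nonneg _)]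

/-- supported on configurations with `k` points in `B` -/
def Sup (B : Set X) (k : ℕ) (F : Multiset X → ℂ) : Prop := ∀ S, cnt B S ≠ k → F S = 0

omit [MeasurableSpace X] in
lemma cnt_cons (B : Set X) (x : X) (S : Multiset X) (hx : x ∈ B) :
    cnt B (x ::ₘ S) = cnt B S + 1 := by
  classical
  unfold cnt
  rw [Multiset.filter_cons_of_pos _ hx, Multiset.card_cons]

omit [MeasurableSpace X] in
lemma sup_an {B : Set X} {k : ℕ} {F : Multiset X → ℂ} (h : Sup B k F) {x : X} (hx : x ∈ B) :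
    Sup B (k - 1) (an x F) := by
  intro S hS
  apply h
  rw [cnt_cons B x S hx]
  omega

omit [MeasurableSpace X] in
lemma sup_sub {B : Set X} {k : ℕ} {F G : Multiset X → ℂ} (h : Sup B k F) (h' : Sup B k G) :
    Sup B k (fun S => F S - G S) := fun S hS => by
  simp only [h S hS, h' S hS, sub_zero]

omit [IsFiniteMeasure ν] in
lemma sup_av {B : Set X} (hB : MeasurableSet B) {k : ℕ} {F : Multiset X → ℂ} (h : Sup B k F) :
    Sup B (k - 1) (av ν B F) := by
  intro S hS
  unfold av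
  have : ∫ x in B, F (x ::ₘ S) ∂ν = 0 := by
    apply setIntegral_eq_zero_of_forall_eq_zero
    intro x hx
    exact sup_an h hx S hS
  rw [this, mul_zero]

omit [MeasurableSpace X] in
lemma cnt_sum (B : Set X) (S : Multiset X) :
    (S.map (B.indicator fun _ => (1 : ℝ≥0∞))).sum = (cnt B S : ℝ≥0∞) := by
  classical
  induction S using Multiset.induction_on with
  | empty => simp [cnt]
  | cons x S ih =>
    rw [Multiset.map_cons, Multiset.sum_cons, ih]
    by_cases hx : x ∈ B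
    · rw [Set.indicator_of_mem hx, cnt_cons B x S hx]
      push_cast
      ring
    · rw [Set.indicator_of_notMem hx, zero_add]
      unfold cnt
      rw [Multiset.filter_cons_of_neg _ hx]

/-- the number of points -/
lemma mecke_B {F : Multiset X → ℂ} (hF : EB F) {B : Set X} (hB : MeasurableSet B) :
    ∫⁻ x in B, nE ν (an x F) ∂ν = ∫⁻ γ, (cnt B (ms γ) : ℝ≥0∞) * ‖F (ms γ)‖ₑ ^ 2 ∂(lam ν) := by
  have h := hMK X ν (fun x S => B.indicator (fun _ => (1 : ℝ≥0∞)) x * ‖F S‖ₑ ^ 2)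
    (((measurable_const.indicator hB).comp measurable_fst).mul
      ((hF.meas.comp measurable_snd).enorm.pow_const 2))
  simp only [Multiset.sum_map_mul_right] at h
  simp only [cnt_sum] at h
  rw [h, ← lintegral_indicator hB]
  refine lintegral_congr fun x => ?_
  by_cases hx : x ∈ B
  · rw [Set.indicator_of_mem hx]
    simp only [Set.indicator_of_mem hx, one_mul]
    rfl
  · rw [Set.indicator_of_notMem hx]
    simp only [Set.indicator_of_notMem hx, zero_mul, lintegral_zero]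

lemma sum_low {F : Multiset X → ℂ} (hF : EB F) {B : Set X} (hB : MeasurableSet B) {k : ℕ}
    (h : Sup B k F) : ∫⁻ x in B, nE ν (an x F) ∂ν = k * nE ν F := by
  rw [mecke_B ν hF hB, nE, ← lintegral_const_mul _ (hF.meas.enorm.pow_const 2)]
  refine lintegral_congr fun γ => ?_
  by_cases e : cnt B (ms γ) = k
  · rw [e]
  · rw [h _ e]; simp

/-- the fluctuation in `B` -/
noncomputable def W (B : Set X) (F : Multiset X → ℂ) (S : Multiset X) : ℝ≥0∞ :=
  ∫⁻ x in B, ‖F (x ::ₘ S) - av ν B F S‖ₑ ^ 2 ∂ν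

lemma meas_diff {F G : Multiset X → ℂ} (hF : EB F) (hG : EB G) :
    Measurable (fun p : X × Cf X => ‖F (p.1 ::ₘ ms p.2) - G (ms p.2)‖ₑ ^ 2) :=
  ((meas_cons hF).sub (hG.meas.comp measurable_snd)).enorm.pow_const 2

lemma meas_W {F : Multiset X → ℂ} (hF : EB F) {B : Set X} (hB : MeasurableSet B) :
    Measurable (fun γ : Cf X => W ν B F (ms γ)) := by
  unfold W
  exact (meas_diff hF (eb_av ν hF hB)).lintegral_prod_left'

lemma dp_W {F : Multiset X → ℂ} (hF : EB F) {B : Set X} (hB : MeasurableSet B) :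
    dp ν B F = ∫⁻ γ, W ν B F (ms γ) ∂(lam ν) := by
  have : IsFiniteMeasure (lam ν) := (hLAM X ν).2.1
  unfold dp W nE
  exact lintegral_lintegral_swap (meas_diff hF (eb_av ν hF hB)).aemeasurable

lemma W_eq {F : Multiset X → ℂ} (hF : EB F) {B : Set X} (b : ℝ) (hb : 0 < b)
    (hνB : ν B = ENNReal.ofReal b) (S : Multiset X) :
    W ν B F S + ENNReal.ofReal b * ‖av ν B F S‖ₑ ^ 2 = ∫⁻ x in B, ‖F (x ::ₘ S)‖ₑ ^ 2 ∂ν := by
  obtain ⟨K, hK⟩ := bdd_sec hF S
  have h := var (ν.restrict B) (fun x => F (x ::ₘ S)) (meas_sec hF S) K hK b hb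
    (by rw [Measure.restrict_apply_univ, hνB])
  unfold W av
  rw [hνB, ENNReal.toReal_ofReal hb.le]
  exact h

lemma dp_eq {F : Multiset X → ℂ} (hF : EB F) {B : Set X} (hB : MeasurableSet B) (b : ℝ)
    (hb : 0 < b) (hνB : ν B = ENNReal.ofReal b) :
    dp ν B F + ENNReal.ofReal b * nE ν (av ν B F) = ∫⁻ x in B, nE ν (an x F) ∂ν := by
  have : IsFiniteMeasure (lam ν) := (hLAM X ν).2.1
  have hA := eb_av ν hF hB
  rw [dp_W ν hF hB, nE, ← lintegral_const_mul _ (hA.meas.enorm.pow_const 2),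
    ← lintegral_add_left (meas_W ν hF hB)]
  simp only [W_eq ν hF b hb hνB]
  unfold nE
  exact lintegral_lintegral_swap
    ((((meas_cons hF).enorm.pow_const 2).comp measurable_swap).aemeasurable)

lemma av_eq {F : Multiset X → ℂ} (hF : EB F) {B : Set X} (hB : MeasurableSet B) (b : ℝ)
    (hb : 0 < b) (hνB : ν B = ENNReal.ofReal b) {k : ℕ} (h : Sup B k F) :
    dp ν B F + ENNReal.ofReal b * nE ν (av ν B F) = k * nE ν F := by
  rw [dp_eq ν hF hB b hb hνB, sum_low ν hF hB h]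

lemma av_le {F : Multiset X → ℂ} (hF : EB F) {B : Set X} (hB : MeasurableSet B) (b : ℝ)
    (hb : 0 < b) (hνB : ν B = ENNReal.ofReal b) {k : ℕ} (h : Sup B k F) :
    ENNReal.ofReal b * nE ν (av ν B F) ≤ k * nE ν F := by
  rw [← av_eq ν hF hB b hb hνB h]
  exact le_add_self

lemma av_comm {F : Multiset X → ℂ} (hF : EB F) {B : Set X} (hB : MeasurableSet B) (y : X) :
    (fun S => av ν B F (y ::ₘ S) - av ν B (av ν B F) S) =
      av ν B (fun S => F (y ::ₘ S) - av ν B F S) := by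
  funext S
  have hA := eb_av ν hF hB
  change av ν B F (y ::ₘ S) - ((ν B).toReal : ℂ)⁻¹ * ∫ x in B, av ν B F (x ::ₘ S) ∂ν =
    ((ν B).toReal : ℂ)⁻¹ * ∫ x in B, (F (y ::ₘ x ::ₘ S) - av ν B F (x ::ₘ S)) ∂ν
  have e : ∀ x, F (y ::ₘ x ::ₘ S) = F (x ::ₘ y ::ₘ S) := fun x => by rw [Multiset.cons_swap]
  simp only [e]
  rw [integral_sub (int_sec ν hF (y ::ₘ S) B) (int_sec ν hA S B), mul_sub]
  rfl

lemma dp_av {F : Multiset X → ℂ} (hF : EB F) {B : Set X} (hB : MeasurableSet B) (b : ℝ)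
    (hb : 0 < b) (hνB : ν B = ENNReal.ofReal b) {k : ℕ} (h : Sup B k F) :
    ENNReal.ofReal b * dp ν B (av ν B F) ≤ ((k - 1 : ℕ) : ℝ≥0∞) * dp ν B F := by
  have hA := eb_av ν hF hB
  unfold dp
  rw [← lintegral_const_mul' _ _ ENNReal.ofReal_ne_top,
    ← lintegral_const_mul' _ _ (ENNReal.natCast_ne_top _)]
  refine setLIntegral_mono' hB fun y hy => ?_
  rw [av_comm ν hF hB y]
  exact av_le ν (eb_sub (eb_an hF y) hA) hB b hb hνB (sup_sub (sup_an h hy) (sup_av ν hB h))

lemma sq_le_two (u v : ℂ) : ‖u‖ₑ ^ 2 ≤ 2 * ‖v‖ₑ ^ 2 + 2 * ‖u - v‖ₑ ^ 2 := by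
  have h2 : (2 : ℝ≥0∞) = ENNReal.ofReal 2 := by simp
  rw [ofReal_sq, ofReal_sq, ofReal_sq, h2, ← ENNReal.ofReal_mul (by norm_num),
    ← ENNReal.ofReal_mul (by norm_num), ← ENNReal.ofReal_add (by positivity) (by positivity)]
  apply ENNReal.ofReal_le_ofReal
  have h := norm_sub_norm_le u v
  have h1 := norm_nonneg u
  have h2 := norm_nonneg v
  have h3 := norm_nonneg (u - v)
  nlinarith [sq_nonneg (‖v‖ - ‖u - v‖)]

omit [IsFiniteMeasure ν] in
lemma nE_le_two {F G : Multiset X → ℂ} (hF : EB F) (hG : EB G) :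
    nE ν F ≤ 2 * nE ν G + 2 * nE ν (fun S => F S - G S) := by
  unfold nE
  rw [← lintegral_const_mul' _ _ (by simp), ← lintegral_const_mul' _ _ (by simp),
    ← lintegral_add_left ((hG.meas.enorm.pow_const 2).const_mul _)]
  exact lintegral_mono fun γ => sq_le_two _ _

/-- points near the boundary -/
lemma bd_le {A : Multiset X → ℂ} (hA : EB A) {B bd : Set X} (hB : MeasurableSet B)
    (hbd : bd ⊆ B) (β : ℝ) (hνbd : ν bd ≤ ENNReal.ofReal β) :
    ∫⁻ x in bd, nE ν (an x A) ∂ν ≤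
      2 * ENNReal.ofReal β * nE ν (av ν B A) + 2 * dp ν B A := by
  have hA2 := eb_av ν hA hB
  calc ∫⁻ x in bd, nE ν (an x A) ∂ν
      ≤ ∫⁻ x in bd, (2 * nE ν (av ν B A) + 2 * nE ν (fun S => A (x ::ₘ S) - av ν B A S)) ∂ν :=
        lintegral_mono fun x => nE_le_two ν (eb_an hA x) hA2
    _ = 2 * nE ν (av ν B A) * ν bd +
        2 * ∫⁻ x in bd, nE ν (fun S => A (x ::ₘ S) - av ν B A S) ∂ν := by
        rw [lintegral_add_left measurable_const, lintegral_const, Measure.restrict_apply_univ,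
          lintegral_const_mul' _ _ (by simp)]
    _ ≤ 2 * nE ν (av ν B A) * ENNReal.ofReal β + 2 * dp ν B A := by
        gcongr
        exact lintegral_mono_set hbd
    _ = _ := by ring

/-! ### pairs of points -/

/-- the number of the points of `S` near `x` -/
noncomputable def nr (B : Set X) (near : X → X → Prop) (x : X) (S : Multiset X) : ℝ≥0∞ :=
  (cnt {y' | y' ∈ B ∧ near x y'} S : ℝ≥0∞)

/-- the number of pairs -/
noncomputable def prs (B : Set X) (near : X → X → Prop) (S : Multiset X) : ℝ≥0∞ :=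
  (S.map fun x => B.indicator (fun _ => (1 : ℝ≥0∞)) x * (nr B near x S - 1)).sum

lemma meas_nr {B : Set X} (hB : MeasurableSet B) {near : X → X → Prop}
    (hnear : MeasurableSet {p : X × X | near p.1 p.2}) :
    Measurable (fun p : X × Cf X => nr B near p.1 (ms p.2)) := by
  have h5 := (hMS X).2.2.2.2.1
  have hm : MeasurableSet {p : X × X | p.2 ∈ B ∧ near p.1 p.2} :=
    (measurable_snd hB).inter hnear
  have h := h5 X (fun x => {y' | y' ∈ B ∧ near x y'}.indicator fun _ => (1 : ℝ≥0∞)) (by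
    have e : (fun q : X × X => {y' | y' ∈ B ∧ near q.1 y'}.indicator (fun _ => (1 : ℝ≥0∞)) q.2) =
        {p : X × X | p.2 ∈ B ∧ near p.1 p.2}.indicator (fun _ => (1 : ℝ≥0∞)) := by
      funext q
      by_cases hq : q.2 ∈ B ∧ near q.1 q.2
      · rw [Set.indicator_of_mem (show q ∈ {p : X × X | p.2 ∈ B ∧ near p.1 p.2} from hq),
          Set.indicator_of_mem (show q.2 ∈ {y' | y' ∈ B ∧ near q.1 y'} from hq)]
      · rw [Set.indicator_of_notMem (show q ∉ {p : X × X | p.2 ∈ B ∧ near p.1 p.2} from hq),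
          Set.indicator_of_notMem (show q.2 ∉ {y' | y' ∈ B ∧ near q.1 y'} from hq)]
    rw [e]
    exact measurable_const.indicator hm)
  simp only [cnt_sum] at h
  exact h

lemma meas_h {B : Set X} (hB : MeasurableSet B) {near : X → X → Prop}
    (hnear : MeasurableSet {p : X × X | near p.1 p.2}) :
    Measurable (fun p : X × Cf X => B.indicator (fun _ => (1 : ℝ≥0∞)) p.1 *
      (nr B near p.1 (ms p.2) - 1)) :=
  ((measurable_const.indicator hB).comp measurable_fst).mul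
    ((meas_nr hB hnear).sub measurable_const)

lemma meas_prs {B : Set X} (hB : MeasurableSet B) {near : X → X → Prop}
    (hnear : MeasurableSet {p : X × X | near p.1 p.2}) :
    Measurable (fun γ : Cf X => prs B near (ms γ)) := by
  have h5 := (hMS X).2.2.2.2.1
  have hw : Measurable (fun q : Cf X × X => B.indicator (fun _ => (1 : ℝ≥0∞)) q.2 *
      (nr B near q.2 (ms q.1) - 1)) := (meas_h hB hnear).comp measurable_swap
  have h := h5 (Cf X) (fun γ x => B.indicator (fun _ => (1 : ℝ≥0∞)) x * (nr B near x (ms γ) - 1))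
    hw
  have h2 : Measurable (fun γ : Cf X => (γ, γ)) := measurable_id.prodMk measurable_id
  have h3 := h.comp h2
  simp only [Function.comp_def] at h3
  exact h3

lemma meas_cnt {B : Set X} (hB : MeasurableSet B) :
    Measurable (fun γ : Cf X => (cnt B (ms γ) : ℝ≥0∞)) := by
  have h5 := (hMS X).2.2.2.2.1
  have h := h5 Unit (fun _ => B.indicator fun _ => (1 : ℝ≥0∞))
    ((measurable_const.indicator hB).comp measurable_snd)
  simp only [cnt_sum] at h
  exact h.comp (measurable_const.prodMk measurable_id : Measurable fun γ : Cf X => ((), γ))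

lemma pairs_mecke {A : Multiset X → ℂ} (hA : EB A) {B : Set X} (hB : MeasurableSet B)
    {near : X → X → Prop} (hnear : MeasurableSet {p : X × X | near p.1 p.2})
    (hrefl : ∀ x, near x x) :
    ∫⁻ γ, prs B near (ms γ) * ‖A (ms γ)‖ₑ ^ 2 ∂(lam ν) =
      ∫⁻ x in B, ∫⁻ y' in {y' | y' ∈ B ∧ near x y'}, nE ν (an y' (an x A)) ∂ν ∂ν := by
  have h := hMK X ν (fun x S => B.indicator (fun _ => (1 : ℝ≥0∞)) x * (nr B near x S - 1) *
    ‖A S‖ₑ ^ 2) ((meas_h hB hnear).mul ((hA.meas.comp measurable_snd).enorm.pow_const 2))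
  simp only [Multiset.sum_map_mul_right] at h
  change ∫⁻ γ, prs B near (ms γ) * ‖A (ms γ)‖ₑ ^ 2 ∂(lam ν) = _ at h
  rw [h, ← lintegral_indicator hB]
  refine lintegral_congr fun x => ?_
  by_cases hx : x ∈ B
  · simp only [Set.indicator_of_mem hx, one_mul]
    have hD : MeasurableSet {y' | y' ∈ B ∧ near x y'} :=
      hB.inter (measurable_prodMk_left hnear)
    rw [mecke_B ν (eb_an hA x) hD]
    refine lintegral_congr fun γ => ?_
    have e : nr B near x (x ::ₘ ms γ) = (cnt {y' | y' ∈ B ∧ near x y'} (ms γ) : ℝ≥0∞) + 1 := by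
      unfold nr
      rw [cnt_cons {y' | y' ∈ B ∧ near x y'} x (ms γ)
        (show x ∈ {y' | y' ∈ B ∧ near x y'} from ⟨hx, hrefl x⟩)]
      push_cast
      rfl
    rw [e, ENNReal.add_sub_cancel_right ENNReal.one_ne_top]
    rfl
  · rw [Set.indicator_of_notMem hx]
    simp only [Set.indicator_of_notMem hx, zero_mul, lintegral_zero]

lemma near_le {A : Multiset X → ℂ} (hA : EB A) {B : Set X} (hB : MeasurableSet B)
    {near : X → X → Prop} (hnear : MeasurableSet {p : X × X | near p.1 p.2})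
    (hrefl : ∀ x, near x x) (ν' : ℝ)
    (hν' : ∀ y ∈ B, ν {y' | y' ∈ B ∧ near y y'} ≤ ENNReal.ofReal ν') {k : ℕ} (h : Sup B k A) :
    ∫⁻ γ, prs B near (ms γ) * ‖A (ms γ)‖ₑ ^ 2 ∂(lam ν) ≤
      2 * ENNReal.ofReal ν' * (k * nE ν (av ν B A)) + 2 * (k * dp ν B A) := by
  have hA2 := eb_av ν hA hB
  have : IsFiniteMeasure (lam ν) := (hLAM X ν).2.1
  rw [pairs_mecke ν hA hB hnear hrefl]
  have hk : ((k - 1 : ℕ) : ℝ≥0∞) ≤ (k : ℝ≥0∞) := by exact_mod_cast Nat.sub_le k 1
  have hG : ∀ y', EB (fun S => A (y' ::ₘ S) - av ν B A S) := fun y' => eb_sub (eb_an hA y') hA2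
  have hstep : ∀ x ∈ B, ∫⁻ y' in {y' | y' ∈ B ∧ near x y'}, nE ν (an y' (an x A)) ∂ν ≤
      2 * ENNReal.ofReal ν' * nE ν (an x (av ν B A)) +
        2 * ∫⁻ y' in B, nE ν (an x (fun S => A (y' ::ₘ S) - av ν B A S)) ∂ν := by
    intro x hx
    calc ∫⁻ y' in {y' | y' ∈ B ∧ near x y'}, nE ν (an y' (an x A)) ∂ν
        ≤ ∫⁻ y' in {y' | y' ∈ B ∧ near x y'}, (2 * nE ν (an x (av ν B A)) +
          2 * nE ν (an x (fun S => A (y' ::ₘ S) - av ν B A S))) ∂ν := by
          refine lintegral_mono fun y' => ?_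
          refine (nE_le_two ν (eb_an (eb_an hA x) y') (eb_an hA2 x)).trans (le_of_eq ?_)
          have e : (fun S => an y' (an x A) S - an x (av ν B A) S) =
              an x (fun S => A (y' ::ₘ S) - av ν B A S) := by
            funext S
            change A (x ::ₘ y' ::ₘ S) - av ν B A (x ::ₘ S) = A (y' ::ₘ x ::ₘ S) - av ν B A (x ::ₘ S)
            rw [Multiset.cons_swap]
          rw [e]
      _ = 2 * nE ν (an x (av ν B A)) * ν {y' | y' ∈ B ∧ near x y'} +
          2 * ∫⁻ y' in {y' | y' ∈ B ∧ near x y'},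
            nE ν (an x (fun S => A (y' ::ₘ S) - av ν B A S)) ∂ν := by
          rw [lintegral_add_left measurable_const, lintegral_const, Measure.restrict_apply_univ,
            lintegral_const_mul' _ _ (by simp)]
      _ ≤ 2 * nE ν (an x (av ν B A)) * ENNReal.ofReal ν' +
          2 * ∫⁻ y' in B, nE ν (an x (fun S => A (y' ::ₘ S) - av ν B A S)) ∂ν := by
          gcongr
          · exact hν' x hx
          · exact fun y' hy' => hy'.1
      _ = _ := by ring
  have hmeas : Measurable (fun p : X × X => nE ν (an p.1 (fun S => A (p.2 ::ₘ S) - av ν B A S))) := by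
    have h1 : Measurable (fun p : (X × X) × Cf X =>
        ‖A (p.1.2 ::ₘ p.1.1 ::ₘ ms p.2) - av ν B A (p.1.1 ::ₘ ms p.2)‖ₑ ^ 2) := by
      refine (Measurable.sub ?_ ?_).enorm.pow_const 2
      · exact (meas_cons2 hA).comp (((measurable_snd.comp measurable_fst).prodMk
          (measurable_fst.comp measurable_fst)).prodMk measurable_snd)
      · exact (meas_cons hA2).comp ((measurable_fst.comp measurable_fst).prodMk measurable_snd)
    exact h1.lintegral_prod_right'
  have hmeas2 : Measurable (fun x => 2 * ENNReal.ofReal ν' * nE ν (an x (av ν B A))) :=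
    ((hEBC X ν _ _ hA2 hA2).2.2.2.2.2.2.2.2.1).const_mul _
  calc ∫⁻ x in B, ∫⁻ y' in {y' | y' ∈ B ∧ near x y'}, nE ν (an y' (an x A)) ∂ν ∂ν
      ≤ ∫⁻ x in B, (2 * ENNReal.ofReal ν' * nE ν (an x (av ν B A)) +
        2 * ∫⁻ y' in B, nE ν (an x (fun S => A (y' ::ₘ S) - av ν B A S)) ∂ν) ∂ν :=
        setLIntegral_mono' hB hstep
    _ = 2 * ENNReal.ofReal ν' * (∫⁻ x in B, nE ν (an x (av ν B A)) ∂ν) +
        2 * ∫⁻ x in B, ∫⁻ y' in B, nE ν (an x (fun S => A (y' ::ₘ S) - av ν B A S)) ∂ν ∂ν := by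
        rw [lintegral_add_left hmeas2, lintegral_const_mul' _ _ (by finiteness),
          lintegral_const_mul' _ _ (by simp)]
    _ = 2 * ENNReal.ofReal ν' * (∫⁻ x in B, nE ν (an x (av ν B A)) ∂ν) +
        2 * ∫⁻ y' in B, ∫⁻ x in B, nE ν (an x (fun S => A (y' ::ₘ S) - av ν B A S)) ∂ν ∂ν := by
        congr 2
        exact lintegral_lintegral_swap hmeas.aemeasurable
    _ = 2 * ENNReal.ofReal ν' * (((k - 1 : ℕ) : ℝ≥0∞) * nE ν (av ν B A)) +
        2 * ∫⁻ y' in B, ((k - 1 : ℕ) : ℝ≥0∞) * nE ν (fun S => A (y' ::ₘ S) - av ν B A S) ∂ν := by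
        rw [sum_low ν hA2 hB (sup_av ν hB h)]
        congr 2
        refine setLIntegral_congr_fun hB fun y' hy' => ?_
        exact sum_low ν (hG y') hB (sup_sub (sup_an h hy') (sup_av ν hB h))
    _ = 2 * ENNReal.ofReal ν' * (((k - 1 : ℕ) : ℝ≥0∞) * nE ν (av ν B A)) +
        2 * (((k - 1 : ℕ) : ℝ≥0∞) * dp ν B A) := by
        rw [lintegral_const_mul' _ _ (ENNReal.natCast_ne_top _)]
        rfl
    _ ≤ _ := by gcongr

/-! ### the pointwise bound -/

omit [MeasurableSpace X] in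
lemma filter_sum (p : X → Prop) [DecidablePred p] (f : X → ℝ≥0∞) (S : Multiset X) :
    ((S.filter p).map f).sum = (S.map fun y => if p y then f y else 0).sum := by
  induction S using Multiset.induction_on with
  | empty => simp
  | cons x S ih =>
    by_cases hx : p x
    · rw [Multiset.filter_cons_of_pos _ hx, Multiset.map_cons, Multiset.sum_cons,
        Multiset.map_cons, Multiset.sum_cons, ih, if_pos hx]
    · rw [Multiset.filter_cons_of_neg _ hx, Multiset.map_cons, Multiset.sum_cons, ih, if_neg hx,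
        zero_add]

lemma real_ineq (ε : ℝ) (hε : 0 < ε) (hε1 : ε ≤ 1) (u v : ℂ) :
    ENNReal.ofReal (1 - ε) * ‖u‖ₑ ^ 2 ≤ ‖v‖ₑ ^ 2 + ENNReal.ofReal (1 / ε) * ‖v - u‖ₑ ^ 2 := by
  rw [ofReal_sq, ofReal_sq, ofReal_sq, ← ENNReal.ofReal_mul (by linarith),
    ← ENNReal.ofReal_mul (by positivity), ← ENNReal.ofReal_add (by positivity) (by positivity)]
  apply ENNReal.ofReal_le_ofReal
  have hA : ‖u‖ ≤ ‖v‖ + ‖v - u‖ := by
    have := norm_sub_norm_le u v
    rw [norm_sub_rev] at this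
    linarith
  set a := ‖u‖
  set b := ‖v - u‖
  set c := ‖v‖
  have ha : 0 ≤ a := norm_nonneg _
  have hb : 0 ≤ b := norm_nonneg _
  have hc : 0 ≤ c := norm_nonneg _
  have h1 : a ^ 2 ≤ (c + b) ^ 2 := pow_le_pow_left₀ ha hA 2
  have h2 : (1 - ε) * (c + b) ^ 2 ≤ c ^ 2 + b ^ 2 / ε - b ^ 2 * ε := by
    have h3 : c ^ 2 + b ^ 2 / ε - b ^ 2 - (1 - ε) * (c + b) ^ 2 =
        (ε * c - (1 - ε) * b) ^ 2 / ε := by
      field_simp
      ring
    have h4 : 0 ≤ (ε * c - (1 - ε) * b) ^ 2 / ε := by positivity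
    have h8 : b ^ 2 * ε ≤ b ^ 2 := by nlinarith [sq_nonneg b]
    linarith
  have h5 : (1 - ε) * a ^ 2 ≤ (1 - ε) * (c + b) ^ 2 :=
    mul_le_mul_of_nonneg_left h1 (by linarith)
  have h6 : 0 ≤ b ^ 2 * ε := by positivity
  have h7 : 1 / ε * b ^ 2 = b ^ 2 / ε := by ring
  rw [h7]
  linarith

/-- averages over smaller sets -/
lemma av_small {F : Multiset X → ℂ} (hF : EB F) {B C : Set X} (hCB : C ⊆ B) (q : ℝ) (hq : 0 < q) (hνC : ν C = ENNReal.ofReal q)
    (S : Multiset X) :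
    ENNReal.ofReal q * ‖av ν C F S - av ν B F S‖ₑ ^ 2 ≤ W ν B F S := by
  obtain ⟨K, hK⟩ := bdd_sec hF S
  have hμ : (ν.restrict C) Set.univ = ENNReal.ofReal q := by
    rw [Measure.restrict_apply_univ, hνC]
  have h := var (ν.restrict C) (fun x => F (x ::ₘ S) - av ν B F S)
    ((meas_sec hF S).sub measurable_const) (K + ‖av ν B F S‖)
    (fun x => (norm_sub_le _ _).trans (by linarith [hK x])) q hq hμ
  have e : (q : ℂ)⁻¹ * ∫ x, (F (x ::ₘ S) - av ν B F S) ∂(ν.restrict C) =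
      av ν C F S - av ν B F S := by
    rw [integral_sub (int_sec ν hF S C) (integrable_const _), integral_const]
    have e1 : (ν.restrict C).real Set.univ = q := by
      rw [Measure.real, hμ, ENNReal.toReal_ofReal hq.le]
    have hqc : (q : ℂ) ≠ 0 := by exact_mod_cast hq.ne'
    rw [e1, mul_sub, Complex.real_smul, ← mul_assoc, inv_mul_cancel₀ hqc, one_mul]
    congr 1
    unfold av
    rw [hνC, ENNReal.toReal_ofReal hq.le]
  rw [e] at h
  calc ENNReal.ofReal q * ‖av ν C F S - av ν B F S‖ₑ ^ 2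
      ≤ ∫⁻ x in C, ‖F (x ::ₘ S) - av ν B F S‖ₑ ^ 2 ∂ν := by
        rw [← h]
        exact le_add_self
    _ ≤ W ν B F S := lintegral_mono_set hCB

lemma ptw {F : Multiset X → ℂ} (hF : EB F) {B bd : Set X} {near : X → X → Prop} {Cb : X → Set X}
    {q ε : ℝ} (hCbm : MeasurableSet {p : X × X | p.2 ∈ Cb p.1}) (hq : 0 < q)
    (hCb : ∀ y ∈ B, y ∉ bd → Cb y ⊆ B ∧ ν (Cb y) = ENNReal.ofReal q) (hε : 0 < ε) (hε1 : ε ≤ 1)
    {k : ℕ} (hA : Sup B k (av ν B F)) (S : Multiset X) :
    ENNReal.ofReal (1 - ε) * (k * ‖av ν B F S‖ₑ ^ 2) ≤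
      ((iso B (B \ bd) near S).map fun y => ‖av ν (Cb y) F S‖ₑ ^ 2).sum +
      (ENNReal.ofReal (1 / (ε * q)) * (k * W ν B F S) + cnt bd S * ‖av ν B F S‖ₑ ^ 2 +
        prs B near S * ‖av ν B F S‖ₑ ^ 2) := by
  classical
  by_cases hS : cnt B S = k
  · set a : ℝ≥0∞ := ‖av ν B F S‖ₑ ^ 2 with ha
    set w : ℝ≥0∞ := ENNReal.ofReal (1 / (ε * q)) * W ν B F S with hw
    have h1ε : ENNReal.ofReal (1 - ε) ≤ 1 := by
      rw [← ENNReal.ofReal_one]
      exact ENNReal.ofReal_le_ofReal (by linarith)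
    have h1a : ENNReal.ofReal (1 - ε) * a ≤ a := by
      calc _ ≤ 1 * a := by gcongr
        _ = a := one_mul a
    have key : ∀ y ∈ B, y ∉ bd → ENNReal.ofReal (1 - ε) * a ≤ ‖av ν (Cb y) F S‖ₑ ^ 2 + w := by
      intro y hy hy'
      obtain ⟨hC1, hC2⟩ := hCb y hy hy'
      refine (real_ineq ε hε hε1 (av ν B F S) (av ν (Cb y) F S)).trans ?_
      gcongr
      have e : ENNReal.ofReal (1 / ε) = ENNReal.ofReal (1 / (ε * q)) * ENNReal.ofReal q := by
        rw [← ENNReal.ofReal_mul (by positivity)]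
        congr 1
        field_simp
      rw [e, mul_assoc, hw]
      gcongr
      exact av_small ν hF hC1 q hq hC2 S
    have hterm : ∀ y ∈ S, B.indicator (fun _ => (1 : ℝ≥0∞)) y * (ENNReal.ofReal (1 - ε) * a) ≤
        (if (y ∈ B \ bd ∧ Multiset.card (S.filter fun y' => y' ∈ B ∧ near y y') ≤ 1) then
          ‖av ν (Cb y) F S‖ₑ ^ 2 else 0) +
        (B.indicator (fun _ => (1 : ℝ≥0∞)) y * w + bd.indicator (fun _ => (1 : ℝ≥0∞)) y * a +
          (B.indicator (fun _ => (1 : ℝ≥0∞)) y * (nr B near y S - 1)) * a) := by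
      intro y _
      by_cases hy : y ∈ B
      · rw [Set.indicator_of_mem hy, one_mul, one_mul, one_mul]
        by_cases hy' : y ∈ bd
        · rw [Set.indicator_of_mem hy', one_mul]
          exact h1a.trans (le_add_left (le_add_right (le_add_left le_rfl)))
        · by_cases hc : Multiset.card (S.filter fun y' => y' ∈ B ∧ near y y') ≤ 1
          · rw [if_pos ⟨⟨hy, hy'⟩, hc⟩]
            refine (key y hy hy').trans ?_
            gcongr
            exact (le_add_right (le_add_right le_rfl))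
          · have h2 : 1 ≤ nr B near y S - 1 := by
              have h3 : (2 : ℝ≥0∞) ≤ nr B near y S := by
                unfold nr cnt
                have h4 : 2 ≤ Multiset.card (S.filter fun y' => y' ∈ B ∧ near y y') := by omega
                have h5 : Multiset.card (S.filter fun y' => y' ∈ {y' | y' ∈ B ∧ near y y'}) =
                    Multiset.card (S.filter fun y' => y' ∈ B ∧ near y y') := rfl
                have h6 : 2 ≤ Multiset.card (S.filter fun y' => y' ∈ {y' | y' ∈ B ∧ near y y'}) := by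
                  rw [h5]; exact h4
                refine le_trans (by norm_num : (2 : ℝ≥0∞) ≤ ((2 : ℕ) : ℝ≥0∞)) ?_
                refine Nat.cast_le.2 (h6.trans (le_of_eq ?_))
                congr
              refine ENNReal.le_sub_of_add_le_left ENNReal.one_ne_top ?_
              rw [one_add_one_eq_two]
              exact h3
            refine h1a.trans (le_add_left (le_add_left ?_))
            calc a = 1 * a := (one_mul a).symm
              _ ≤ (nr B near y S - 1) * a := by gcongr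
      · rw [Set.indicator_of_notMem hy, zero_mul]
        exact bot_le
    have hsum := Multiset.sum_map_le_sum_map _ _ hterm
    rw [Multiset.sum_map_add, Multiset.sum_map_add, Multiset.sum_map_add,
      Multiset.sum_map_mul_right, Multiset.sum_map_mul_right, Multiset.sum_map_mul_right,
      Multiset.sum_map_mul_right, cnt_sum, cnt_sum, hS, ← filter_sum] at hsum
    have e1 : ENNReal.ofReal (1 - ε) * (k * a) = k * (ENNReal.ofReal (1 - ε) * a) := by ring
    have e2 : ENNReal.ofReal (1 / (ε * q)) * (k * W ν B F S) = k * w := by rw [hw]; ring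
    rw [e1, e2]
    refine hsum.trans (le_of_eq ?_)
    congr
  · rw [hA S hS]
    simp

end

lemma fin_real (k : ℕ) (b q ν' β ε a c D D' e Z : ℝ) (hb : 0 < b) (hq : 0 < q) (hν' : 0 ≤ ν')
    (hβ : 0 ≤ β) (hε : 0 < ε) (hε1 : ε ≤ 1) (ha0 : 0 ≤ a) (hc0 : 0 ≤ c) (hD0 : 0 ≤ D)
    (h1 : D + b * c = (k + 1) * a) (h2 : b * D' ≤ k * D) (h3 : b * e ≤ k * c)
    (h4 : (1 - ε) * (k * c) ≤ Z + (1 / (ε * q) * (k * D) + (2 * β * e + 2 * D') +
      (2 * ν' * (k * e) + 2 * (k * D')))) :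
    (1 - ε) * (k + 1) ^ 2 / b * a ≤
      ((k + 1) / b + (k + 1) ^ 2 / b ^ 2 * (2 * β + 2 * ν' * (k + 1))) * a +
      ((3 * (k + 1) + 2 * (k + 1) ^ 2) / b + (k + 1) / (ε * q)) * D + Z := by
  have hk0 : (0 : ℝ) ≤ k := Nat.cast_nonneg k
  have hc' : c = ((k + 1) * a - D) / b := by
    rw [eq_div_iff hb.ne']; linarith
  have hD'2 : D' ≤ k * D / b := by rw [le_div_iff₀ hb]; linarith
  have he' : e ≤ (k + 1) ^ 2 / b ^ 2 * a := by
    have h5 : e ≤ k * c / b := by rw [le_div_iff₀ hb]; linarith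
    have h6 : c ≤ (k + 1) * a / b := by rw [hc']; gcongr; linarith
    calc e ≤ k * c / b := h5
      _ ≤ (k + 1) * ((k + 1) * a / b) / b := by gcongr; linarith
      _ = _ := by ring
  have h7 : (2 * β + 2 * ν' * k) * e ≤ (2 * β + 2 * ν' * (k + 1)) * ((k + 1) ^ 2 / b ^ 2 * a) := by
    calc (2 * β + 2 * ν' * k) * e ≤ (2 * β + 2 * ν' * k) * ((k + 1) ^ 2 / b ^ 2 * a) := by
          gcongr
      _ ≤ _ := by
          gcongr
          linarith
  have h8 : (2 + 2 * k) * D' ≤ (2 + 2 * k) * (k * D / b) := by gcongr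
  have h9 : (1 - ε) * (k * c) = (1 - ε) * (k + 1) ^ 2 / b * a - (1 - ε) * ((k + 1) / b * a) -
      (1 - ε) * (k / b * D) := by
    rw [hc']; ring
  have h10 : (1 - ε) * ((k + 1) / b * a) ≤ (k + 1) / b * a := by
    have : 0 ≤ (k + 1) / b * a := by positivity
    nlinarith
  have h11 : (1 - ε) * (k / b * D) ≤ k / b * D := by
    have : 0 ≤ k / b * D := by positivity
    nlinarith
  have h12 : (2 + 2 * k) * (k * D / b) + k / b * D ≤
      ((3 * (k + 1) + 2 * (k + 1) ^ 2) / b) * D := by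
    have h13 : ((3 * (k + 1) + 2 * (k + 1) ^ 2) / b) * D - ((2 + 2 * k) * (k * D / b) + k / b * D) =
        (4 * k + 5) * D / b := by ring
    have h14 : 0 ≤ (4 * (k : ℝ) + 5) * D / b := by positivity
    linarith
  have h15 : 1 / (ε * q) * (k * D) ≤ (k + 1) / (ε * q) * D := by
    have h16 : (k + 1) / (ε * q) * D = 1 / (ε * q) * (k * D) + D / (ε * q) := by ring
    have h17 : 0 ≤ D / (ε * q) := by positivity
    linarith
  linarith

theorem one : S_ONE := by
  intro X _ ν _ B bd near Cb N b q ν' β ε F hB hbdm hnear hCbm hb hνB hbd hβ hνbd hrefl hsym hν'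
    hνn hq hCb hε hε1 hF hsupp
  rcases Nat.eq_zero_or_pos N with rfl | hN
  · have : (1 - ε) * ((0 : ℕ) : ℝ) ^ 2 / b = 0 := by simp
    rw [this, ENNReal.ofReal_zero, zero_mul]
    exact bot_le
  obtain ⟨k, rfl⟩ : ∃ k, N = k + 1 := ⟨N - 1, by omega⟩
  have hSup : Sup B (k + 1) F := hsupp
  have hA := eb_av ν hF hB
  have hAs : Sup B k (av ν B F) := sup_av ν hB hSup
  have hlam : IsFiniteMeasure (lam ν) := (hLAM X ν).2.1
  -- the main inequality
  have hbd1 := bd_le ν hA hB hbd β hνbd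
  rw [mecke_B ν hA hbdm] at hbd1
  have hnear1 := near_le ν hA hB hnear hrefl ν' hνn hAs
  have i1 := av_eq ν hF hB b hb hνB hSup
  have i2 := dp_av ν hF hB b hb hνB hSup
  have i3 := av_le ν hA hB b hb hνB hAs
  set Z := ∫⁻ γ, ((iso B (B \ bd) near (ms γ)).map fun y => ‖av ν (Cb y) F (ms γ)‖ₑ ^ 2).sum
    ∂(lam ν) with hZ
  have hmW := meas_W ν hF hB
  have hmA : Measurable fun γ : Cf X => ‖av ν B F (ms γ)‖ₑ ^ 2 := hA.meas.enorm.pow_const 2
  have m1 : Measurable fun γ : Cf X => ENNReal.ofReal (1 / (ε * q)) * (k * W ν B F (ms γ)) :=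
    (hmW.const_mul _).const_mul _
  have m2 : Measurable fun γ : Cf X => (cnt bd (ms γ) : ℝ≥0∞) * ‖av ν B F (ms γ)‖ₑ ^ 2 :=
    (meas_cnt hbdm).mul hmA
  have m3 : Measurable fun γ : Cf X => prs B near (ms γ) * ‖av ν B F (ms γ)‖ₑ ^ 2 :=
    (meas_prs hB hnear).mul hmA
  have m123 : Measurable fun γ : Cf X => ENNReal.ofReal (1 / (ε * q)) * (k * W ν B F (ms γ)) +
      cnt bd (ms γ) * ‖av ν B F (ms γ)‖ₑ ^ 2 + prs B near (ms γ) * ‖av ν B F (ms γ)‖ₑ ^ 2 :=
    (m1.add m2).add m3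
  have i4 : ENNReal.ofReal (1 - ε) * (k * nE ν (av ν B F)) ≤
      Z + (ENNReal.ofReal (1 / (ε * q)) * (k * dp ν B F) +
        (2 * ENNReal.ofReal β * nE ν (av ν B (av ν B F)) + 2 * dp ν B (av ν B F)) +
        (2 * ENNReal.ofReal ν' * (k * nE ν (av ν B (av ν B F))) +
          2 * (k * dp ν B (av ν B F)))) := by
    calc ENNReal.ofReal (1 - ε) * (k * nE ν (av ν B F))
        = ∫⁻ γ, ENNReal.ofReal (1 - ε) * (k * ‖av ν B F (ms γ)‖ₑ ^ 2) ∂(lam ν) := by
          rw [lintegral_const_mul' _ _ ENNReal.ofReal_ne_top,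
            lintegral_const_mul' _ _ (ENNReal.natCast_ne_top _)]
          rfl
      _ ≤ ∫⁻ γ, (((iso B (B \ bd) near (ms γ)).map fun y => ‖av ν (Cb y) F (ms γ)‖ₑ ^ 2).sum +
          (ENNReal.ofReal (1 / (ε * q)) * (k * W ν B F (ms γ)) +
            cnt bd (ms γ) * ‖av ν B F (ms γ)‖ₑ ^ 2 +
            prs B near (ms γ) * ‖av ν B F (ms γ)‖ₑ ^ 2)) ∂(lam ν) :=
          lintegral_mono fun γ => ptw ν hF hCbm hq hCb hε hε1 hAs (ms γ)
      _ = Z + (ENNReal.ofReal (1 / (ε * q)) * (k * dp ν B F) +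
            (∫⁻ γ, cnt bd (ms γ) * ‖av ν B F (ms γ)‖ₑ ^ 2 ∂(lam ν)) +
            ∫⁻ γ, prs B near (ms γ) * ‖av ν B F (ms γ)‖ₑ ^ 2 ∂(lam ν)) := by
          rw [lintegral_add_right _ m123, lintegral_add_right _ m3, lintegral_add_right _ m2,
            lintegral_const_mul' _ _ ENNReal.ofReal_ne_top,
            lintegral_const_mul' _ _ (ENNReal.natCast_ne_top _), ← dp_W ν hF hB]
      _ ≤ _ := by gcongr
  -- finiteness
  have ha : nE ν F ≠ ⊤ := ((hLAM X ν).2.2.2.2.1 F hF).ne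
  have hb' : ENNReal.ofReal b ≠ 0 := by
    rw [ne_eq, ENNReal.ofReal_eq_zero, not_le]; exact hb
  have hsumfin : dp ν B F + ENNReal.ofReal b * nE ν (av ν B F) ≠ ⊤ := by
    rw [i1]
    exact ENNReal.mul_ne_top (ENNReal.natCast_ne_top _) ha
  have hD : dp ν B F ≠ ⊤ := ne_top_of_le_ne_top hsumfin le_self_add
  have hc : nE ν (av ν B F) ≠ ⊤ := ((hLAM X ν).2.2.2.2.1 _ hA).ne
  have he : nE ν (av ν B (av ν B F)) ≠ ⊤ := ((hLAM X ν).2.2.2.2.1 _ (eb_av ν hA hB)).ne
  have hD' : dp ν B (av ν B F) ≠ ⊤ := by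
    intro htop
    rw [htop, ENNReal.mul_top hb', top_le_iff] at i2
    exact ENNReal.mul_ne_top (ENNReal.natCast_ne_top _) hD i2
  by_cases hZt : Z = ⊤
  · rw [hZt, add_top]
    exact le_top
  -- real numbers
  generalize nE ν F = a at *
  generalize dp ν B F = D at *
  generalize nE ν (av ν B F) = c at *
  generalize nE ν (av ν B (av ν B F)) = e at *
  generalize dp ν B (av ν B F) = D' at *
  clear_value Z
  lift a to NNReal using ha
  lift D to NNReal using hD
  lift c to NNReal using hc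
  lift e to NNReal using he
  lift D' to NNReal using hD'
  lift Z to NNReal using hZt
  have hr : ∀ x : NNReal, (x : ℝ≥0∞) = ENNReal.ofReal (x : ℝ) := fun x =>
    (ENNReal.ofReal_coe_nnreal).symm
  have hk : ∀ m : ℕ, (m : ℝ≥0∞) = ENNReal.ofReal (m : ℝ) := fun m =>
    (ENNReal.ofReal_natCast m).symm
  have h2 : (2 : ℝ≥0∞) = ENNReal.ofReal 2 := by simp
  have hk0 : (0 : ℝ) ≤ k := Nat.cast_nonneg k
  rw [hr a, hr D, hr c, hk, ← ENNReal.ofReal_mul hb.le, ← ENNReal.ofReal_mul (by positivity),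
    ← ENNReal.ofReal_add (by positivity) (by positivity),
    ENNReal.ofReal_eq_ofReal_iff (by positivity) (by positivity)] at i1
  rw [Nat.add_sub_cancel, hr D, hr D', hk, ← ENNReal.ofReal_mul hb.le,
    ← ENNReal.ofReal_mul (by positivity), ENNReal.ofReal_le_ofReal_iff (by positivity)] at i2
  rw [hr c, hr e, hk, ← ENNReal.ofReal_mul hb.le, ← ENNReal.ofReal_mul (by positivity),
    ENNReal.ofReal_le_ofReal_iff (by positivity)] at i3
  rw [hr c, hr e, hr D, hr D', hr Z, hk, h2] at i4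
  simp only [← ENNReal.ofReal_mul hk0] at i4
  rw [← ENNReal.ofReal_mul (by linarith), ← ENNReal.ofReal_mul (by positivity),
    ← ENNReal.ofReal_mul (by positivity), ← ENNReal.ofReal_mul (by positivity),
    ← ENNReal.ofReal_mul (by positivity), ← ENNReal.ofReal_mul (by positivity),
    ← ENNReal.ofReal_mul (by positivity), ← ENNReal.ofReal_mul (by positivity),
    ← ENNReal.ofReal_add (by positivity) (by positivity),
    ← ENNReal.ofReal_add (by positivity) (by positivity),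
    ← ENNReal.ofReal_add (by positivity) (by positivity),
    ← ENNReal.ofReal_add (by positivity) (by positivity),
    ← ENNReal.ofReal_add (by positivity) (by positivity),
    ENNReal.ofReal_le_ofReal_iff (by positivity)] at i4
  push_cast at i1
  have hfin := fin_real k b q ν' β ε a c D D' e Z hb hq hν' hβ hε hε1 a.2 c.2 D.2 i1 i2 i3 i4
  rw [hr a, hr D, hr Z]
  push_cast
  rw [← ENNReal.ofReal_mul (by
      have : 0 ≤ 1 - ε := by linarith
      positivity), ← ENNReal.ofReal_mul (by positivity),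
    ← ENNReal.ofReal_mul (by positivity), ← ENNReal.ofReal_add (by positivity) (by positivity),
    ← ENNReal.ofReal_add (by positivity) (by positivity)]
  exact ENNReal.ofReal_le_ofReal hfin

end Pool.Agent.W366.CC.One
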